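import Pool.Agent.Helper2.NW.CRXA

/-!
# Project NW: crossings
-/

set_option autoImplicit false
set_option maxHeartbeats 4000000

namespace Pool.Agent.Helper2.NW

open Pool.Agent.Helper52.Wq2 Pool.Agent.Helper61.NW

universe u

section
variable {Γ : Type u} [Group Γ] {S : Set Γ} {h : Γ → ℤ} {s : Γ} {H n m : ℕ}

theorem h_zpow (t : Two S h s H n m) (k : ℤ) : h (s ^ k) = k * H := by
  have h1 : h 1 = 0 := by
    have := t.hom 1 1
    rw [mul_one] at this
    omega
  have hinv : h s⁻¹ = - H := by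
    have := t.hom s s⁻¹
    rw [mul_inv_cancel, h1, t.Hs] at this
    omega
  induction k using Int.induction_on with
  | zero => rw [zpow_zero, h1]; ring
  | succ k ih => rw [zpow_add_one, t.hom, ih, t.Hs]; ring
  | pred k ih => rw [zpow_sub_one, t.hom, ih, hinv]; ring

/-- position -/
def pos (h : Γ → ℤ) (H : ℕ) (g : Γ) : ℤ := h g / (H : ℤ)

theorem pos_mul (t : Two S h s H n m) (g : Γ) (k : ℤ) : pos h H (g * s ^ k) = pos h H g + k := by
  have hH : (H : ℤ) ≠ 0 := by exact_mod_cast t.Hpos.ne'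
  unfold pos
  rw [t.hom, h_zpow t, Int.add_mul_ediv_right _ _ hH]

/-- the point of a line at a position -/
noncomputable def pnt (h : Γ → ℤ) (s : Γ) (H : ℕ) (A : Γ ⧸ Subgroup.zpowers s) (p : ℤ) : Γ :=
  A.out * s ^ (p - pos h H A.out)

theorem mk_eq {a b : Γ} : (a : Γ ⧸ Subgroup.zpowers s) = b ↔ ∃ k : ℤ, b = a * s ^ k := by
  rw [QuotientGroup.eq, Subgroup.mem_zpowers_iff]
  constructor
  · rintro ⟨k, hk⟩
    exact ⟨k, by rw [hk, mul_inv_cancel_left]⟩
  · rintro ⟨k, rfl⟩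
    exact ⟨k, by rw [inv_mul_cancel_left]⟩

theorem mk_pnt (A : Γ ⧸ Subgroup.zpowers s) (p : ℤ) :
    ((pnt h s H A p : Γ) : Γ ⧸ Subgroup.zpowers s) = A := by
  have h1 : ((A.out : Γ) : Γ ⧸ Subgroup.zpowers s) = A := Quotient.out_eq' A
  have h2 : ((A.out : Γ) : Γ ⧸ Subgroup.zpowers s) = ((pnt h s H A p : Γ) : Γ ⧸ Subgroup.zpowers s) :=
    mk_eq.2 ⟨_, rfl⟩
  exact h2.symm.trans h1

theorem pos_pnt (t : Two S h s H n m) (A : Γ ⧸ Subgroup.zpowers s) (p : ℤ) :
    pos h H (pnt h s H A p) = p := by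
  unfold pnt
  rw [pos_mul t]
  ring

theorem eq_pnt (t : Two S h s H n m) (g : Γ) :
    g = pnt h s H (g : Γ ⧸ Subgroup.zpowers s) (pos h H g) := by
  have h1 : (((g : Γ ⧸ Subgroup.zpowers s).out : Γ) : Γ ⧸ Subgroup.zpowers s) = g :=
    Quotient.out_eq' _
  obtain ⟨k, hk⟩ := mk_eq.1 h1
  unfold pnt
  have h2 : pos h H g = pos h H ((g : Γ ⧸ Subgroup.zpowers s).out) + k := by
    conv_lhs => rw [hk]
    rw [pos_mul t]
  rw [h2, add_sub_cancel_left]
  exact hk

theorem pnt_add (A : Γ ⧸ Subgroup.zpowers s) (p k : ℤ) :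
    pnt h s H A (p + k) = pnt h s H A p * s ^ k := by
  unfold pnt
  rw [mul_assoc, ← zpow_add]
  congr 2
  ring

theorem central (t : Two S h s H n m) (k : ℤ) (g : Γ) :
    g * s ^ ((m : ℤ) * k) = s ^ ((m : ℤ) * k) * g := by
  have hc : Commute g (s ^ m) := t.cen g
  have := hc.zpow_right k
  rw [← zpow_natCast, ← zpow_mul] at this
  exact this

theorem pnt_tr (t : Two S h s H n m) (A : Γ ⧸ Subgroup.zpowers s) (p k : ℤ) :
    pnt h s H A (p + m * k) = s ^ ((m : ℤ) * k) * pnt h s H A p := by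
  rw [pnt_add, central t]

theorem adj_left (hS : IsGen S) (c a b : Γ) : (cay S).Adj (c * a) (c * b) ↔ (cay S).Adj a b := by
  rw [cay_adj hS, cay_adj hS, mul_inv_rev, mul_assoc, inv_mul_cancel_left]

theorem adj_tr (t : Two S h s H n m) {A B : Γ ⧸ Subgroup.zpowers s} {p p' : ℤ} (k : ℤ)
    (ha : (cay S).Adj (pnt h s H A p) (pnt h s H B p')) :
    (cay S).Adj (pnt h s H A (p + m * k)) (pnt h s H B (p' + m * k)) := by
  rw [pnt_tr t, pnt_tr t, adj_left t.gen]
  exact ha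

theorem step (t : Two S h s H n m) (A : Γ ⧸ Subgroup.zpowers s) (p : ℤ) :
    (cay S).Adj (pnt h s H A p) (pnt h s H A (p + 1)) := by
  rw [pnt_add, zpow_one]
  exact cay_adj_mul t.gen _ t.hs

theorem pos_le (t : Two S h s H n m) (g w : Γ) (hw : w ∈ S) :
    pos h H g - 1 ≤ pos h H (g * w) ∧ pos h H (g * w) ≤ pos h H g + 1 := by
  have hH : (0 : ℤ) < H := by exact_mod_cast t.Hpos
  have h1 := t.max w hw
  rw [abs_le] at h1
  unfold pos
  rw [t.hom]
  have e1 : (h g + (-1) * (H : ℤ)) / (H : ℤ) = h g / H + (-1) := Int.add_mul_ediv_right _ _ hH.ne'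
  have e2 : (h g + 1 * (H : ℤ)) / (H : ℤ) = h g / H + 1 := Int.add_mul_ediv_right _ _ hH.ne'
  have e3 : (h g + (-1) * (H : ℤ)) / (H : ℤ) ≤ (h g + h w) / (H : ℤ) :=
    Int.ediv_le_ediv hH (by omega)
  have e4 : (h g + h w) / (H : ℤ) ≤ (h g + 1 * (H : ℤ)) / (H : ℤ) :=
    Int.ediv_le_ediv hH (by omega)
  constructor <;> omega

theorem gap_pts (t : Two S h s H n m) {A B : Γ ⧸ Subgroup.zpowers s} (hAB : (Ln S s).Adj A B)
    (K : ℤ) : ∃ p p' : ℤ, K ≤ p ∧ p < K + m ∧ p - 1 ≤ p' ∧ p' ≤ p + 1 ∧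
      (cay S).Adj (pnt h s H A p) (pnt h s H B p') := by
  have hm : (0 : ℤ) < m := by exact_mod_cast t.mpos
  have base : ∃ p p' : ℤ, p - 1 ≤ p' ∧ p' ≤ p + 1 ∧
      (cay S).Adj (pnt h s H A p) (pnt h s H B p') := by
    unfold Ln at hAB
    rw [SimpleGraph.fromRel_adj] at hAB
    obtain ⟨_, ⟨g, w, hw, hg, hgw⟩ | ⟨g, w, hw, hg, hgw⟩⟩ := hAB
    · refine ⟨pos h H g, pos h H (g * w), (pos_le t g w hw).1, (pos_le t g w hw).2, ?_⟩
      rw [← hg, ← hgw, ← eq_pnt t, ← eq_pnt t]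
      exact cay_adj_mul t.gen _ hw
    · obtain ⟨h1, h2⟩ := pos_le t g w hw
      refine ⟨pos h H (g * w), pos h H g, by omega, by omega, ?_⟩
      rw [← hg, ← hgw, ← eq_pnt t, ← eq_pnt t]
      exact (cay_adj_mul t.gen _ hw).symm
  obtain ⟨p, p', h1, h2, h3⟩ := base
  have e1 := Int.emod_add_mul_ediv (p - K) m
  have e2 := Int.emod_nonneg (p - K) hm.ne'
  have e3 := Int.emod_lt_of_pos (p - K) hm
  have e4 : (m : ℤ) * (-((p - K) / m)) = -((m : ℤ) * ((p - K) / m)) := by ring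
  refine ⟨p + m * (-((p - K) / m)), p' + m * (-((p - K) / m)), ?_, ?_, by omega, by omega,
    adj_tr t _ h3⟩
  · rw [e4]; omega
  · rw [e4]; omega

/-- crossing lines -/
def Cr (S : Set Γ) (h : Γ → ℤ) (s : Γ) (H : ℕ) (A B : Γ ⧸ Subgroup.zpowers s) : Prop :=
  ∃ a b : Γ, (a : Γ ⧸ Subgroup.zpowers s) = A ∧ (b : Γ ⧸ Subgroup.zpowers s) = B ∧
    h b = h a + H ∧ a⁻¹ * b ∈ S ∧ (a * s)⁻¹ * (b * s⁻¹) ∈ S

theorem Cr.symm (t : Two S h s H n m) {A B : Γ ⧸ Subgroup.zpowers s} (hc : Cr S h s H A B) :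
    Cr S h s H B A := by
  obtain ⟨a, b, ha, hb, h1, h2, h3⟩ := hc
  have e1 : h (b * s⁻¹) = h b - H := by
    have := t.hom b (s ^ (-1 : ℤ))
    rw [h_zpow t, zpow_neg_one] at this
    rw [this]
    ring
  refine ⟨b * s⁻¹, a * s, ?_, ?_, ?_, ?_, ?_⟩
  · rw [← hb]
    exact (mk_eq.2 ⟨-1, by rw [zpow_neg_one]⟩).symm
  · rw [← ha]
    exact (mk_eq.2 ⟨1, by rw [zpow_one]⟩).symm
  · rw [e1, t.hom, t.Hs]
    omega
  · have := t.gen.2.1 _ h3
    rwa [mul_inv_rev, inv_inv] at this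
  · have := t.gen.2.1 _ h2
    rw [mul_inv_rev, inv_inv] at this
    rwa [inv_mul_cancel_right, mul_inv_cancel_right]

theorem Cr.smul (t : Two S h s H n m) {A B : Γ ⧸ Subgroup.zpowers s} (hc : Cr S h s H A B)
    (g : Γ) : Cr S h s H (g • A) (g • B) := by
  obtain ⟨a, b, ha, hb, h1, h2, h3⟩ := hc
  refine ⟨g * a, g * b, ?_, ?_, ?_, ?_, ?_⟩
  · rw [← ha]; rfl
  · rw [← hb]; rfl
  · rw [t.hom, t.hom, h1]; ring
  · rw [mul_inv_rev, mul_assoc, inv_mul_cancel_left]
    exact h2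
  · rw [mul_assoc, mul_assoc, mul_inv_rev, mul_assoc, inv_mul_cancel_left]
    exact h3

theorem ln_smul {A B : Γ ⧸ Subgroup.zpowers s} (hAB : (Ln S s).Adj A B) (g : Γ) :
    (Ln S s).Adj (g • A) (g • B) := by
  unfold Ln at hAB ⊢
  rw [SimpleGraph.fromRel_adj] at hAB ⊢
  obtain ⟨hne, hrel⟩ := hAB
  refine ⟨fun he => hne (MulAction.injective g he), ?_⟩
  rcases hrel with ⟨a, w, hw, ha, haw⟩ | ⟨a, w, hw, ha, haw⟩
  · left
    refine ⟨g * a, w, hw, ?_, ?_⟩
    · rw [← ha]; rfl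
    · rw [← haw, mul_assoc]; rfl
  · right
    refine ⟨g * a, w, hw, ?_, ?_⟩
    · rw [← ha]; rfl
    · rw [← haw, mul_assoc]; rfl

theorem cr_pts (t : Two S h s H n m) {A B : Γ ⧸ Subgroup.zpowers s} (hc : Cr S h s H A B) :
    ∃ p0 : ℤ, 0 ≤ p0 ∧ p0 < m ∧ ∀ k : ℤ,
      (cay S).Adj (pnt h s H A (p0 + m * k)) (pnt h s H B (p0 + m * k + 1)) ∧
      (cay S).Adj (pnt h s H A (p0 + m * k + 1)) (pnt h s H B (p0 + m * k)) := by
  have hH : (H : ℤ) ≠ 0 := by exact_mod_cast t.Hpos.ne'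
  have hm : (0 : ℤ) < m := by exact_mod_cast t.mpos
  obtain ⟨a, b, ha, hb, h1, h2, h3⟩ := hc
  obtain ⟨p, hp⟩ : ∃ p, p = pos h H a := ⟨_, rfl⟩
  have e1 : pnt h s H A p = a := by
    rw [hp, ← ha]
    exact (eq_pnt t a).symm
  have hpb : pos h H b = p + 1 := by
    rw [hp]
    unfold pos
    rw [h1]
    have : h a + (H : ℤ) = h a + 1 * H := by ring
    rw [this, Int.add_mul_ediv_right _ _ hH]
  have e2 : pnt h s H B (p + 1) = b := by
    rw [← hpb, ← hb]
    exact (eq_pnt t b).symm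
  have e3 : pnt h s H A (p + 1) = a * s := by
    rw [pnt_add, e1, zpow_one]
  have e4 : pnt h s H B p = b * s⁻¹ := by
    have := pnt_add (h := h) (H := H) B (p + 1) (-1)
    rw [add_neg_cancel_right, e2, zpow_neg_one] at this
    exact this
  have a1 : (cay S).Adj (pnt h s H A p) (pnt h s H B (p + 1)) := by
    rw [e1, e2, cay_adj t.gen]
    exact h2
  have a2 : (cay S).Adj (pnt h s H A (p + 1)) (pnt h s H B p) := by
    rw [e3, e4, cay_adj t.gen]
    exact h3
  have f1 := Int.emod_add_mul_ediv p m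
  have f2 := Int.emod_nonneg p hm.ne'
  have f3 := Int.emod_lt_of_pos p hm
  refine ⟨p % m, f2, f3, ?_⟩
  intro k
  have f4 : p % m + m * k = p + m * (k - p / m) := by
    have : (m : ℤ) * (k - p / m) = m * k - m * (p / m) := by ring
    omega
  have f5 : p % m + m * k + 1 = (p + 1) + m * (k - p / m) := by
    rw [f4]; ring
  rw [f5, f4]
  exact ⟨adj_tr t _ a1, adj_tr t _ a2⟩

end

theorem crx : CrxStmt.{u} := by
  intro Γ _ S h s H n m t hn e hcyc hex q hq
  have hNe : NeZero n := ⟨by omega⟩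
  obtain ⟨r, hr⟩ := hex
  -- gaps with a crossing
  let X : ZMod n → Prop := fun j => Cr S h s H (e.symm j) (e.symm (j + 1))
  have hXr : X r := by
    obtain ⟨a, b, ha, hb, h1, h2, h3⟩ := hr
    refine ⟨a, b, ?_, ?_, h1, h2, h3⟩
    · rw [← ha, Equiv.symm_apply_apply]
    · rw [← hb, Equiv.symm_apply_apply]
  have hne2 : ∀ u : ZMod n, u + 1 ≠ u - 1 := by
    intro u hu
    have h1 : (2 : ZMod n) = 0 := by
      have : u + 1 - (u - 1) = 0 := by rw [hu, sub_self]
      calc (2 : ZMod n) = u + 1 - (u - 1) := by ring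
        _ = 0 := this
    have h2 : ((2 : ℕ) : ZMod n) = 0 := by exact_mod_cast h1
    rw [ZMod.natCast_eq_zero_iff] at h2
    have := Nat.le_of_dvd (by norm_num) h2
    omega
  have hg : ∀ u v : ZMod n, ∃ g : Γ, g • e.symm u = e.symm v := by
    intro u v
    obtain ⟨a, ha⟩ := QuotientGroup.mk_surjective (e.symm u)
    obtain ⟨b, hb⟩ := QuotientGroup.mk_surjective (e.symm v)
    refine ⟨b * a⁻¹, ?_⟩
    rw [← ha, ← hb]
    show ((b * a⁻¹ * a : Γ) : Γ ⧸ Subgroup.zpowers s) = _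
    rw [inv_mul_cancel_right]
  have nbr : ∀ (u v w : ZMod n) (g : Γ), g • e.symm u = e.symm v → (w = u + 1 ∨ u = w + 1) →
      e (g • e.symm w) = v + 1 ∨ e (g • e.symm w) = v - 1 := by
    intro u v w g hgu hw
    have h1 : (Ln S s).Adj (e.symm u) (e.symm w) := by
      rw [hcyc, Equiv.apply_symm_apply, Equiv.apply_symm_apply]
      exact hw
    have h2 := ln_smul h1 g
    rw [hgu, hcyc, Equiv.apply_symm_apply] at h2
    rcases h2 with h2 | h2
    · exact Or.inl h2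
    · exact Or.inr (by rw [h2]; ring)
  have toX : ∀ (v : ZMod n) (B : Γ ⧸ Subgroup.zpowers s), Cr S h s H (e.symm v) B →
      (e B = v + 1 → X v) ∧ (e B = v - 1 → X (v - 1)) := by
    intro v B hB
    constructor
    · intro h1
      show Cr S h s H (e.symm v) (e.symm (v + 1))
      rw [← h1, Equiv.symm_apply_apply]
      exact hB
    · intro h1
      show Cr S h s H (e.symm (v - 1)) (e.symm (v - 1 + 1))
      rw [sub_add_cancel, ← h1, Equiv.symm_apply_apply]
      exact hB.symm t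
  have orT : ∀ u v : ZMod n, X u → X v ∨ X (v - 1) := by
    intro u v hu
    obtain ⟨g, hgu⟩ := hg u v
    have h1 := Cr.smul t hu g
    rw [hgu] at h1
    rcases nbr u v (u + 1) g hgu (Or.inl rfl) with h2 | h2
    · exact Or.inl ((toX v _ h1).1 h2)
    · exact Or.inr ((toX v _ h1).2 h2)
  have andT : ∀ u v : ZMod n, X u → X (u - 1) → X v := by
    intro u v hu hu'
    obtain ⟨g, hgu⟩ := hg u v
    have h1 := Cr.smul t hu g
    rw [hgu] at h1
    have hu'' : Cr S h s H (e.symm u) (e.symm (u - 1)) := by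
      have h3 : Cr S h s H (e.symm (u - 1)) (e.symm (u - 1 + 1)) := hu'
      rw [sub_add_cancel] at h3
      exact h3.symm t
    have h2 := Cr.smul t hu'' g
    rw [hgu] at h2
    rcases nbr u v (u + 1) g hgu (Or.inl rfl) with k1 | k1
    · exact (toX v _ h1).1 k1
    · rcases nbr u v (u - 1) g hgu (Or.inr (by ring)) with k2 | k2
      · exact (toX v _ h2).1 k2
      · exfalso
        have h4 : e.symm (u + 1) = e.symm (u - 1) :=
          MulAction.injective g (e.injective (k1.trans k2.symm))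
        exact hne2 u (e.symm.injective h4)
  have two : ∀ u : ZMod n, X u → X (u + 2) := by
    intro u hu
    by_cases h1 : X (u + 1)
    · refine andT (u + 1) (u + 2) h1 ?_
      rw [add_sub_cancel_right]
      exact hu
    · rcases orT u (u + 2) hu with h2 | h2
      · exact h2
      · exfalso
        apply h1
        have : u + 2 - 1 = u + 1 := by ring
        rwa [this] at h2
  have hXj : ∀ j : ℕ, X (r + 2 * (j : ZMod n)) := by
    intro j
    induction j with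
    | zero =>
      have : r + 2 * ((0 : ℕ) : ZMod n) = r := by
        rw [Nat.cast_zero]; ring
      rw [this]
      exact hXr
    | succ j ih =>
      have : r + 2 * ((j + 1 : ℕ) : ZMod n) = r + 2 * (j : ZMod n) + 2 := by
        push_cast; ring
      rw [this]
      exact two _ ih
  have hm : (0 : ℤ) < m := by exact_mod_cast t.mpos
  refine abst q (fun i p => pnt h s H (e.symm (r + (i : ZMod n))) p) m hm ?_ ?_ ?_ ?_
  · intro i p
    exact step t _ p
  · intro i i' p p' hi hi' he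
    have h1 : e.symm (r + (i : ZMod n)) = e.symm (r + (i' : ZMod n)) := by
      have := congrArg (fun g : Γ => (g : Γ ⧸ Subgroup.zpowers s)) he
      simp only [mk_pnt] at this
      exact this
    have h2 : (i : ZMod n) = (i' : ZMod n) := add_left_cancel (e.symm.injective h1)
    rw [ZMod.natCast_eq_natCast_iff', Nat.mod_eq_of_lt (by omega), Nat.mod_eq_of_lt (by omega)]
      at h2
    refine ⟨h2, ?_⟩
    have h3 := congrArg (pos h H) he
    simp only [pos_pnt t] at h3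
    exact h3
  · intro j _
    obtain ⟨p0, h1, h2, h3⟩ := cr_pts t (hXj j)
    refine ⟨p0, h1, h2, ?_⟩
    intro k
    have e1 : r + ((2 * j : ℕ) : ZMod n) = r + 2 * (j : ZMod n) := by push_cast; ring
    have e2 : r + ((2 * j + 1 : ℕ) : ZMod n) = r + 2 * (j : ZMod n) + 1 := by push_cast; ring
    simp only [e1, e2]
    exact h3 k
  · intro j _ K
    have h1 : (Ln S s).Adj (e.symm (r + ((2 * j + 1 : ℕ) : ZMod n)))
        (e.symm (r + ((2 * j + 2 : ℕ) : ZMod n))) := by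
      rw [hcyc, Equiv.apply_symm_apply, Equiv.apply_symm_apply]
      left
      push_cast
      ring
    exact gap_pts t h1 K

end Pool.Agent.Helper2.NW
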