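import Pool.Agent.Helper61.NW.Goals

/-!
# Project NW: crossings, the combinatorial part
-/

set_option autoImplicit false
set_option maxHeartbeats 4000000

namespace Pool.Agent.Helper2.NW

open Pool.Agent.Helper52.Wq2

theorem ediv_eq {T i y : ℤ} (hT : 0 < T) (h1 : T * i ≤ y) (h2 : y < T * i + T) : y / T = i := by
  apply le_antisymm
  · apply Int.lt_add_one_iff.1
    apply Int.ediv_lt_of_lt_mul hT
    linarith [mul_comm T i, add_mul i 1 T]
  · apply Int.le_ediv_of_mul_le hT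
    linarith [mul_comm T i]

theorem win {U x x' p : ℤ} (hU : 0 < U) (h1 : U * x ≤ p) (h2 : p < U * x + U)
    (h3 : U * x' ≤ p) (h4 : p < U * x' + U) : x = x' :=
  (ediv_eq hU h1 h2).symm.trans (ediv_eq hU h3 h4)

theorem abst {V : Type*} {G : SimpleGraph V} (q : ℕ) (pt : ℕ → ℤ → V) (m : ℤ) (hm : 0 < m)
    (hstep : ∀ i p, G.Adj (pt i p) (pt i (p + 1)))
    (hinj : ∀ i i' p p', i < 2 * q + 2 → i' < 2 * q + 2 → pt i p = pt i' p' → i = i' ∧ p = p')
    (hcr : ∀ j, j ≤ q → ∃ p0 : ℤ, 0 ≤ p0 ∧ p0 < m ∧ ∀ k : ℤ,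
      G.Adj (pt (2 * j) (p0 + m * k)) (pt (2 * j + 1) (p0 + m * k + 1)) ∧
      G.Adj (pt (2 * j) (p0 + m * k + 1)) (pt (2 * j + 1) (p0 + m * k)))
    (hgap : ∀ j, j < q → ∀ K : ℤ, ∃ p p' : ℤ, K ≤ p ∧ p < K + m ∧ p - 1 ≤ p' ∧ p' ≤ p + 1 ∧
      G.Adj (pt (2 * j + 1) p) (pt (2 * j + 2) p')) : Mn (StarZ (Fin q)) G := by
  classical
  choose! c hc using hcr
  obtain ⟨T, hTdef⟩ : ∃ T : ℤ, T = 4 * m := ⟨_, rfl⟩
  have hT : 0 < T := by omega
  obtain ⟨U, hUdef⟩ : ∃ U : ℤ, U = 2 * T := ⟨_, rfl⟩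
  have hU : 0 < U := by omega
  let st : ℕ → ℤ → Prop := fun j p => Even ((p - c j - 1) / T + j)
  let ln : ℕ → ℤ → ℕ := fun j p => if st j p then 2 * j else 2 * j + 1
  let fn : ℕ → ℤ → ℕ := fun j p => if st j p then 2 * j + 1 else 2 * j
  let leaf : ℕ → ℤ → V := fun j p => pt (ln j p) p
  let part : ℕ → ℤ → V := fun j p => pt (fn j p) p
  have hln : ∀ j p, ln j p = 2 * j ∨ ln j p = 2 * j + 1 := by
    intro j p
    show (if st j p then 2 * j else 2 * j + 1) = 2 * j ∨ (if st j p then 2 * j else 2 * j + 1) = 2 * j + 1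
    split_ifs <;> simp
  have hfn : ∀ j p, fn j p = 2 * j ∨ fn j p = 2 * j + 1 := by
    intro j p
    show (if st j p then 2 * j + 1 else 2 * j) = 2 * j ∨ (if st j p then 2 * j + 1 else 2 * j) = 2 * j + 1
    split_ifs <;> simp
  have hlf : ∀ j p, ln j p ≠ fn j p := by
    intro j p
    show (if st j p then 2 * j else 2 * j + 1) ≠ (if st j p then 2 * j + 1 else 2 * j)
    split_ifs <;> omega
  have lnT : ∀ j p, st j p → ln j p = 2 * j := fun j p h => if_pos h
  have lnF : ∀ j p, ¬ st j p → ln j p = 2 * j + 1 := fun j p h => if_neg h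
  have fnT : ∀ j p, st j p → fn j p = 2 * j + 1 := fun j p h => if_pos h
  have fnF : ∀ j p, ¬ st j p → fn j p = 2 * j := fun j p h => if_neg h
  have hst : ∀ j p i, T * i ≤ p - c j - 1 → p - c j - 1 < T * i + T → (st j p ↔ Even (i + j)) := by
    intro j p i h1 h2
    show Even ((p - c j - 1) / T + j) ↔ _
    rw [ediv_eq hT h1 h2]
  have hadj : ∀ j, j ≤ q → ∀ p, G.Adj (leaf j p) (leaf j (p + 1)) ∧
      G.Adj (part j p) (part j (p + 1)) := by
    intro j hj p
    obtain ⟨_, _, h3⟩ := hc j hj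
    obtain ⟨i, hi⟩ : ∃ i, i = (p - c j - 1) / T := ⟨_, rfl⟩
    have e1 : T * i ≤ p - c j - 1 := by
      rw [hi]
      exact Int.mul_ediv_self_le hT.ne'
    have e2 : p - c j - 1 < T * i + T := by
      rw [hi]
      exact Int.lt_mul_ediv_self_add hT
    have s1 := hst j p i e1 e2
    by_cases h : p + 1 - c j - 1 < T * i + T
    · have s2 := hst j (p + 1) i (by omega) h
      by_cases hev : Even (i + j)
      · refine ⟨?_, ?_⟩
        · show G.Adj (pt (ln j p) p) (pt (ln j (p + 1)) (p + 1))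
          rw [lnT j p (s1.2 hev), lnT j (p + 1) (s2.2 hev)]
          exact hstep _ _
        · show G.Adj (pt (fn j p) p) (pt (fn j (p + 1)) (p + 1))
          rw [fnT j p (s1.2 hev), fnT j (p + 1) (s2.2 hev)]
          exact hstep _ _
      · refine ⟨?_, ?_⟩
        · show G.Adj (pt (ln j p) p) (pt (ln j (p + 1)) (p + 1))
          rw [lnF j p (fun h => hev (s1.1 h)), lnF j (p + 1) (fun h => hev (s2.1 h))]
          exact hstep _ _
        · show G.Adj (pt (fn j p) p) (pt (fn j (p + 1)) (p + 1))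
          rw [fnF j p (fun h => hev (s1.1 h)), fnF j (p + 1) (fun h => hev (s2.1 h))]
          exact hstep _ _
    · have e3 : T * (i + 1) = T * i + T := by ring
      have s2 := hst j (p + 1) (i + 1) (by omega) (by omega)
      have e4 : p = c j + m * (4 * (i + 1)) := by
        have : m * (4 * (i + 1)) = T * i + T := by rw [hTdef]; ring
        omega
      obtain ⟨a1, a2⟩ := h3 (4 * (i + 1))
      rw [← e4] at a1 a2
      by_cases hev : Even (i + j)
      · have hev2 : ¬ Even (i + 1 + j) := by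
          intro h5
          obtain ⟨a, ha⟩ := hev
          obtain ⟨b, hb⟩ := h5
          omega
        refine ⟨?_, ?_⟩
        · show G.Adj (pt (ln j p) p) (pt (ln j (p + 1)) (p + 1))
          rw [lnT j p (s1.2 hev), lnF j (p + 1) (fun h => hev2 (s2.1 h))]
          exact a1
        · show G.Adj (pt (fn j p) p) (pt (fn j (p + 1)) (p + 1))
          rw [fnT j p (s1.2 hev), fnF j (p + 1) (fun h => hev2 (s2.1 h))]
          exact a2.symm
      · have hev2 : Even (i + 1 + j) := by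
          rw [Int.not_even_iff_odd] at hev
          obtain ⟨a, ha⟩ := hev
          exact ⟨a + 1, by omega⟩
        refine ⟨?_, ?_⟩
        · show G.Adj (pt (ln j p) p) (pt (ln j (p + 1)) (p + 1))
          rw [lnF j p (fun h => hev (s1.1 h)), lnT j (p + 1) (s2.2 hev2)]
          exact a2.symm
        · show G.Adj (pt (fn j p) p) (pt (fn j (p + 1)) (p + 1))
          rw [fnF j p (fun h => hev (s1.1 h)), fnT j (p + 1) (s2.2 hev2)]
          exact a1
  -- leaves and partners at the swaps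
  have hspoke : ∀ j, j ≤ q → ∀ x : ℤ, ∃ p p' : ℤ, (U * x ≤ p ∧ p < U * x + U) ∧
      (U * x ≤ p' ∧ p' < U * x + U) ∧ G.Adj (part j p) (leaf j p') := by
    intro j hj x
    obtain ⟨h1, h2, _⟩ := hc j hj
    have eU : U * x = T * (2 * x) := by rw [hUdef]; ring
    have eT : T * (2 * x - 1) = T * (2 * x) - T := by ring
    have s1 := hst j (c j + U * x) (2 * x - 1) (by omega) (by omega)
    have s2 := hst j (c j + U * x + 1) (2 * x) (by omega) (by omega)
    refine ⟨c j + U * x + 1, c j + U * x, ⟨by omega, by omega⟩, ⟨by omega, by omega⟩, ?_⟩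
    show G.Adj (pt (fn j (c j + U * x + 1)) (c j + U * x + 1)) (pt (ln j (c j + U * x)) (c j + U * x))
    by_cases hev : Even (2 * x + j)
    · have hev2 : ¬ Even (2 * x - 1 + j) := by
        intro h5
        obtain ⟨a, ha⟩ := hev
        obtain ⟨b, hb⟩ := h5
        omega
      rw [fnT _ _ (s2.2 hev), lnF _ _ (fun h => hev2 (s1.1 h))]
      exact (hstep _ _).symm
    · have hev2 : Even (2 * x - 1 + j) := by
        rw [Int.not_even_iff_odd] at hev
        obtain ⟨a, ha⟩ := hev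
        exact ⟨a, by omega⟩
      rw [fnF _ _ (fun h => hev (s2.1 h)), lnT _ _ (s1.2 hev2)]
      exact (hstep _ _).symm
  -- consecutive partners
  have hlat : ∀ j, j < q → ∀ x : ℤ, ∃ p p' : ℤ, (U * x ≤ p ∧ p < U * x + U) ∧
      (U * x ≤ p' ∧ p' < U * x + U) ∧ G.Adj (part j p) (part (j + 1) p') := by
    intro j hj x
    obtain ⟨h1, h2, _⟩ := hc j hj.le
    obtain ⟨h1', h2', _⟩ := hc (j + 1) hj
    have key : ∀ i : ℤ, Even (i + j) → U * x ≤ T * i → T * i + T ≤ U * x + U →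
        ∃ p p' : ℤ, (U * x ≤ p ∧ p < U * x + U) ∧
          (U * x ≤ p' ∧ p' < U * x + U) ∧ G.Adj (part j p) (part (j + 1) p') := by
      intro i hev hi1 hi2
      obtain ⟨p, p', k1, k2, k3, k4, k5⟩ := hgap j hj (T * i + m + 1)
      have s1 := hst j p i (by omega) (by omega)
      have s2 := hst (j + 1) p' i (by omega) (by omega)
      refine ⟨p, p', ⟨by omega, by omega⟩, ⟨by omega, by omega⟩, ?_⟩
      have hev2 : ¬ Even (i + ((j + 1 : ℕ) : ℤ)) := by
        intro h5
        obtain ⟨a, ha⟩ := hev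
        obtain ⟨b, hb⟩ := h5
        push_cast at hb
        omega
      show G.Adj (pt (fn j p) p) (pt (fn (j + 1) p') p')
      rw [fnT _ _ (s1.2 hev), fnF _ _ (fun h => hev2 (s2.1 h))]
      exact k5
    have eU : U * x = T * (2 * x) := by rw [hUdef]; ring
    by_cases hj2 : Even (j : ℤ)
    · apply key (2 * x)
      · exact (even_two_mul x).add hj2
      · omega
      · omega
    · have eT : T * (2 * x + 1) = T * (2 * x) + T := by ring
      apply key (2 * x + 1)
      · rw [Int.not_even_iff_odd] at hj2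
        obtain ⟨a, ha⟩ := hj2
        exact ⟨x + a + 1, by omega⟩
      · omega
      · omega
  have hLconn : ∀ j, j ≤ q → ∀ x : ℤ,
      Conn G {v | ∃ p, (U * x ≤ p ∧ p < U * x + U) ∧ leaf j p = v} := by
    intro j hj x
    exact conn_line (leaf j) (fun p => U * x ≤ p ∧ p < U * x + U) (U * x) ⟨le_refl _, by omega⟩
      (fun y h1 h2 => ⟨h1, by omega⟩) (fun y h1 h2 => ⟨by omega, by omega⟩)
      (fun y _ _ => (hadj j hj y).1)
  have hPconn : ∀ j, j ≤ q → ∀ x : ℤ,
      Conn G {v | ∃ p, (U * x ≤ p ∧ p < U * x + U) ∧ part j p = v} := by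
    intro j hj x
    exact conn_line (part j) (fun p => U * x ≤ p ∧ p < U * x + U) (U * x) ⟨le_refl _, by omega⟩
      (fun y h1 h2 => ⟨h1, by omega⟩) (fun y h1 h2 => ⟨by omega, by omega⟩)
      (fun y _ _ => (hadj j hj y).2)
  have hCconn : ∀ x : ℤ, ∀ k, k ≤ q →
      Conn G {v | ∃ j, j ≤ k ∧ ∃ p, (U * x ≤ p ∧ p < U * x + U) ∧ part j p = v} := by
    intro x k
    induction k with
    | zero =>
      intro hk
      have e : {v | ∃ j, j ≤ 0 ∧ ∃ p, (U * x ≤ p ∧ p < U * x + U) ∧ part j p = v} =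
          {v | ∃ p, (U * x ≤ p ∧ p < U * x + U) ∧ part 0 p = v} := by
        ext v
        constructor
        · rintro ⟨j, hj, p, hp, rfl⟩
          obtain rfl : j = 0 := by omega
          exact ⟨p, hp, rfl⟩
        · rintro ⟨p, hp, rfl⟩
          exact ⟨0, le_refl _, p, hp, rfl⟩
      rw [e]
      exact hPconn 0 hk x
    | succ k ih =>
      intro hk
      have e : {v | ∃ j, j ≤ k + 1 ∧ ∃ p, (U * x ≤ p ∧ p < U * x + U) ∧ part j p = v} =
          {v | ∃ j, j ≤ k ∧ ∃ p, (U * x ≤ p ∧ p < U * x + U) ∧ part j p = v} ∪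
          {v | ∃ p, (U * x ≤ p ∧ p < U * x + U) ∧ part (k + 1) p = v} := by
        ext v
        constructor
        · rintro ⟨j, hj, p, hp, rfl⟩
          rcases Nat.lt_or_ge k j with h | h
          · obtain rfl : j = k + 1 := by omega
            exact Or.inr ⟨p, hp, rfl⟩
          · exact Or.inl ⟨j, h, p, hp, rfl⟩
        · rintro (⟨j, hj, p, hp, rfl⟩ | ⟨p, hp, rfl⟩)
          · exact ⟨j, by omega, p, hp, rfl⟩
          · exact ⟨k + 1, le_refl _, p, hp, rfl⟩
      rw [e]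
      obtain ⟨p, p', w1, w2, w3⟩ := hlat k (by omega) x
      exact (ih (by omega)).union (hPconn (k + 1) hk x) ⟨k, le_refl _, p, w1, rfl⟩
        ⟨p', w2, rfl⟩ w3
  refine ⟨fun v => match v.2 with
    | none => {w | ∃ j, j ≤ q ∧ ∃ p, (U * v.1 ≤ p ∧ p < U * v.1 + U) ∧ part j p = w}
    | some j => {w | ∃ p, (U * v.1 ≤ p ∧ p < U * v.1 + U) ∧ leaf (j : ℕ) p = w}, ?_, ?_, ?_⟩
  · rintro ⟨x, _ | j⟩
    · exact hCconn x q (le_refl _)
    · exact hLconn j j.2.le x
  · rintro ⟨x, _ | j⟩ ⟨x', _ | j'⟩ w hw hw'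
    · obtain ⟨a, ha, p, hp, rfl⟩ := hw
      obtain ⟨a', ha', p', hp', he⟩ := hw'
      have h1 := hfn a p
      have h2 := hfn a' p'
      obtain ⟨_, e2⟩ := hinj _ _ _ _ (by omega) (by omega) he
      subst e2
      have e4 : x = x' := win hU hp.1 hp.2 hp'.1 hp'.2
      rw [e4]
    · obtain ⟨a, ha, p, hp, rfl⟩ := hw
      obtain ⟨p', hp', he⟩ := hw'
      have hj' := j'.2
      have h1 := hfn a p
      have h2 := hln j' p'
      obtain ⟨e1, e2⟩ := hinj _ _ _ _ (by omega) (by omega) he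
      subst e2
      have e3 : a = (j' : ℕ) := by omega
      subst e3
      exact absurd e1 (hlf _ _)
    · obtain ⟨p, hp, rfl⟩ := hw
      obtain ⟨a, ha, p', hp', he⟩ := hw'
      have hj := j.2
      have h1 := hfn a p'
      have h2 := hln j p
      obtain ⟨e1, e2⟩ := hinj _ _ _ _ (by omega) (by omega) he
      subst e2
      have e3 : a = (j : ℕ) := by omega
      subst e3
      exact absurd e1.symm (hlf _ _)
    · obtain ⟨p, hp, rfl⟩ := hw
      obtain ⟨p', hp', he⟩ := hw'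
      have hj := j.2
      have hj' := j'.2
      have h1 := hln j p
      have h2 := hln j' p'
      obtain ⟨e1, e2⟩ := hinj _ _ _ _ (by omega) (by omega) he
      subst e2
      have e3 : j = j' := Fin.ext (by omega)
      have e4 : x = x' := win hU hp.1 hp.2 hp'.1 hp'.2
      rw [e4, e3]
  · have eU : ∀ x : ℤ, U * (x + 1) = U * x + U := fun x => by ring
    have lnk : ∀ (x : ℤ) (o : Option (Fin q)),
        ∃ a ∈ (match o with
          | none => {w | ∃ j, j ≤ q ∧ ∃ p, (U * x ≤ p ∧ p < U * x + U) ∧ part j p = w}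
          | some j => {w | ∃ p, (U * x ≤ p ∧ p < U * x + U) ∧ leaf (j : ℕ) p = w} : Set V),
        ∃ b ∈ (match o with
          | none => {w | ∃ j, j ≤ q ∧ ∃ p, (U * (x + 1) ≤ p ∧ p < U * (x + 1) + U) ∧ part j p = w}
          | some j => {w | ∃ p, (U * (x + 1) ≤ p ∧ p < U * (x + 1) + U) ∧ leaf (j : ℕ) p = w} :
            Set V), G.Adj a b := by
      rintro x (_ | j)
      · refine ⟨part 0 (U * x + U - 1), ⟨0, Nat.zero_le _, _, ⟨by omega, by omega⟩, rfl⟩,
          part 0 (U * x + U - 1 + 1), ⟨0, Nat.zero_le _, _, ⟨?_, ?_⟩, rfl⟩,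
          (hadj 0 (Nat.zero_le _) _).2⟩
        · rw [eU]; omega
        · rw [eU]; omega
      · refine ⟨leaf j (U * x + U - 1), ⟨_, ⟨by omega, by omega⟩, rfl⟩,
          leaf j (U * x + U - 1 + 1), ⟨_, ⟨?_, ?_⟩, rfl⟩, (hadj j j.2.le _).1⟩
        · rw [eU]; omega
        · rw [eU]; omega
    have sp : ∀ (x : ℤ) (j : Fin q),
        ∃ a ∈ ({w | ∃ j, j ≤ q ∧ ∃ p, (U * x ≤ p ∧ p < U * x + U) ∧ part j p = w} : Set V),
        ∃ b ∈ ({w | ∃ p, (U * x ≤ p ∧ p < U * x + U) ∧ leaf (j : ℕ) p = w} : Set V),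
          G.Adj a b := by
      intro x j
      obtain ⟨p, p', w1, w2, w3⟩ := hspoke j j.2.le x
      exact ⟨_, ⟨j, j.2.le, p, w1, rfl⟩, _, ⟨p', w2, rfl⟩, w3⟩
    rintro ⟨x, o⟩ ⟨x', o'⟩ hadj'
    unfold StarZ at hadj'
    rw [SimpleGraph.fromRel_adj] at hadj'
    obtain ⟨hne, (⟨h1, h2⟩ | ⟨h1, h2⟩) | (⟨h1, h2⟩ | ⟨h1, h2⟩)⟩ := hadj'
    · simp only at h1 h2
      subst h1 h2
      exact lnk x o
    · simp only at h1 h2
      subst h1 h2
      rcases o' with _ | i
      · exact absurd rfl hne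
      · exact sp x i
    · simp only at h1 h2
      subst h1 h2
      obtain ⟨a, ha, b, hb, hab⟩ := lnk x' o'
      exact ⟨b, hb, a, ha, hab.symm⟩
    · simp only at h1 h2
      subst h1 h2
      rcases o with _ | i
      · exact absurd rfl hne
      · obtain ⟨a, ha, b, hb, hab⟩ := sp x' i
        exact ⟨b, hb, a, ha, hab.symm⟩

end Pool.Agent.Helper2.NW
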